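import Pool.Agent.Y739.TK.Half

/-!
# Turk's head knots (project of helper472): `STAR` for `n = 5, 6, 7`
(job TK-ST567)
-/

set_option autoImplicit false

namespace Pool.Agent.Y739.TK

open Set Filter Topology MeasureTheory intervalIntegral
open scoped Real Interval
open Pool.Agent.Y472.K (Lc lf Ep ga Ch yn bs Es Dn ee HH PO STAR S_PAR S_JEN S_G1 S_G2 S_G3 S_G5)
open Pool.Agent.Y813.TK (ps ph ps_cont ph_cont ph_reflect ps_neg ps_pos_arg ph_int_half
  ls_int Lc_cont Lc_deriv Lc_one ee_cont ee_deriv ee_one der_pos der_neg int_lf lf_zero)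

/-! ### The sum over a cycle -/

lemma sum3 {n : ℕ} [NeZero n] (hn : 3 ≤ n) (g : Fin n → ℝ) (r : Fin n) (B S : ℝ)
    (d1 : r - 1 ≠ r) (d2 : r ≠ r + 1) (d3 : r - 1 ≠ r + 1)
    (h3 : g (r - 1) + g r + g (r + 1) ≤ B) (hS : ∀ s, g s ≤ S) :
    ∑ s, g s ≤ B + (n - 3) * S := by
  classical
  have hA : ∑ s ∈ ({r - 1, r, r + 1} : Finset (Fin n)), g s = g (r - 1) + g r + g (r + 1) := by
    rw [Finset.sum_insert (by simp [d1, d3]), Finset.sum_insert (by simp [d2]),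
      Finset.sum_singleton]
    ring
  have hcard : ({r - 1, r, r + 1} : Finset (Fin n)).card = 3 := by
    rw [Finset.card_insert_of_notMem (by simp [d1, d3]),
      Finset.card_insert_of_notMem (by simp [d2]), Finset.card_singleton]
  have hc : ∑ s ∈ ({r - 1, r, r + 1} : Finset (Fin n))ᶜ, g s ≤ (n - 3) * S := by
    have h := Finset.sum_le_card_nsmul ({r - 1, r, r + 1} : Finset (Fin n))ᶜ g S
      (fun s _ => hS s)
    rw [Finset.card_compl, hcard, Fintype.card_fin, nsmul_eq_mul, Nat.cast_sub hn] at h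
    push_cast at h
    exact h
  rw [← Finset.sum_add_sum_compl ({r - 1, r, r + 1} : Finset (Fin n)), hA]
  linarith

/-! ### Pairs on the line of the height `1/2` -/

section Half

variable (hJ : S_JEN) (hG1 : S_G1) (hG2 : S_G2) (hG5 : S_G5)

include hJ hG1 in
lemma Ep_x {x y a b : ℝ} (hy : 0 < y) (hx : |x| ≤ π) (hb : 0 ≤ b) (hb2 : b ≤ 1 / 2)
    (ha2 : 1 / 2 ≤ a) (ha : a ≤ 1) : Ep x y a b ≤ Ep 0 y a b := by
  unfold Pool.Agent.Y472.K.Ep
  have := (hG1 hJ x y a b hy hx hb hb2 ha2 ha).1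
  linarith

include hG5 in
lemma one_sided {x y a b : ℝ} (hy : 0 < y) (hb : 0 ≤ b) (hba : b ≤ a) (ha : a ≤ 1)
    (h : a ≤ 1 / 2 ∨ 1 / 2 ≤ b) : Ep x y a b ≤ Th (Real.cosh y) (1 / 4) := by
  refine (hG5 x y a b hy hb hba ha h).trans (kk_le (Real.one_lt_cosh.2 hy.ne') (by linarith) ?_)
  rcases h with h | h <;> linarith

include hJ hG1 hG2 hG5 in
lemma all_le {x a b : ℝ} (hx : |x| ≤ π) (hb : 0 ≤ b) (hba : b ≤ a) (ha : a ≤ 1) :
    Ep x (1 / 2) a b ≤ 0.3372 := by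
  by_cases hc : b ≤ 1 / 2 ∧ 1 / 2 ≤ a
  · have h1 := Ep_x hJ hG1 (y := 1 / 2) (by norm_num) hx hb hc.1 hc.2 ha
    have h2 := (hG2 (1 / 2) a b (by norm_num) hb hc.1 hc.2 ha).1
    exact h1.trans (h2.trans (eeS hJ (by linarith) (by linarith)))
  · have hc' : a ≤ 1 / 2 ∨ 1 / 2 ≤ b := by
      by_contra h
      push Not at h
      exact hc ⟨h.2.le, h.1.le⟩
    have h1 := one_sided hG5 (x := x) (y := 1 / 2) (by norm_num) hb hba ha hc'
    have h2 := Th4
    norm_num at h1 h2 ⊢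
    linarith

include hJ hG1 hG2 in
lemma bad_le {x a b : ℝ} (hx : |x| ≤ π) (hb : 0 ≤ b) (ha : a ≤ 1) (h : 0.93 < a - b) :
    Ep x (1 / 2) a b ≤ 1 / 4 := by
  norm_num at h
  have h1 := Ep_x hJ hG1 (x := x) (y := 1 / 2) (a := a) (b := b) (by norm_num) hx hb
    (by linarith) (by linarith) ha
  have h2 := (hG2 (1 / 2) a b (by norm_num) hb (by linarith) (by linarith) ha).1
  exact h1.trans (h2.trans (eeP hJ (by linarith) (by linarith)))

include hJ hG1 hG2 in
lemma adj_le {x a b : ℝ} (hx : |x| ≤ π) (hb : 0 ≤ b) (hb2 : b ≤ 1 / 2) (ha2 : 1 / 2 ≤ a)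
    (ha : a ≤ 1) (h : b ≤ 0.07 ∨ 0.93 ≤ a) : Ep x (1 / 2) a b ≤ 0.2915 := by
  refine (Ep_x hJ hG1 (y := 1 / 2) (by norm_num) hx hb hb2 ha2 ha).trans ?_
  rcases le_total (7 / 12) (a - b) with h1 | h1
  · exact (hG2 (1 / 2) a b (by norm_num) hb hb2 ha2 ha).1.trans (eeM hJ h1 (by linarith))
  · have h2 := int_lf (y := 1 / 2) (a := a) (b := b) (by norm_num)
    change _ = Th (Real.cosh (1 / 2)) (a - 1 / 2) + Th (Real.cosh (1 / 2)) (1 / 2 - b) at h2
    unfold Pool.Agent.Y472.K.Ep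
    rw [h2]
    rcases h with h | h
    · have h3 := near (u := a - 1 / 2) (v := 1 / 2 - b) hJ (by linarith)
        (by norm_num at h ⊢; linarith) (by linarith) (by linarith)
      rw [show a - 1 / 2 + (1 / 2 - b) = a - b by ring] at h3
      exact h3
    · have h3 := near (u := 1 / 2 - b) (v := a - 1 / 2) hJ (by linarith)
        (by norm_num at h ⊢; linarith) (by linarith) (by linarith)
      rw [show 1 / 2 - b + (a - 1 / 2) = a - b by ring] at h3
      linarith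

include hJ hG1 hG2 hG5 in
/-- the end point near `0` -/
lemma two_b {x a b b' : ℝ} (hx : |x| ≤ π) (hb : 0 ≤ b) (hb' : 0 ≤ b') (hba : b ≤ a)
    (hba' : b' ≤ a) (ha : a ≤ 1) (h : b ≤ 0.07) :
    Ep x (1 / 2) a b + Ep x (1 / 2) a b' ≤ 0.6287 := by
  rcases le_total (1 / 2) a with h1 | h1
  · have h2 := adj_le hJ hG1 hG2 hx hb (by norm_num at h ⊢; linarith) h1 ha (Or.inl h)
    have h3 := all_le hJ hG1 hG2 hG5 hx hb' hba' ha
    norm_num at h2 h3 ⊢
    linarith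
  · have h2 := one_sided hG5 (x := x) (y := 1 / 2) (by norm_num) hb hba ha (Or.inl h1)
    have h3 := one_sided hG5 (x := x) (y := 1 / 2) (by norm_num) hb' hba' ha (Or.inl h1)
    have h4 := Th4
    norm_num at h2 h3 h4 ⊢
    linarith

include hJ hG1 hG2 hG5 in
/-- the end point near `1` -/
lemma two_a {x a a' b : ℝ} (hx : |x| ≤ π) (hb : 0 ≤ b) (hba : b ≤ a)
    (hba' : b ≤ a') (ha : a ≤ 1) (ha' : a' ≤ 1) (h : 0.93 ≤ a) :
    Ep x (1 / 2) a b + Ep x (1 / 2) a' b ≤ 0.6287 := by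
  rcases le_total b (1 / 2) with h1 | h1
  · have h2 := adj_le hJ hG1 hG2 hx hb h1 (by norm_num at h ⊢; linarith) ha (Or.inr h)
    have h3 := all_le hJ hG1 hG2 hG5 hx hb hba' ha'
    norm_num at h2 h3 ⊢
    linarith
  · have h2 := one_sided hG5 (x := x) (y := 1 / 2) (by norm_num) hb hba ha (Or.inr h1)
    have h3 := one_sided hG5 (x := x) (y := 1 / 2) (by norm_num) hb hba' ha' (Or.inr h1)
    have h4 := Th4
    norm_num at h2 h3 h4 ⊢
    linarith

include hJ hG1 hG2 hG5 in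
/-- a configuration with a pair of difference greater than `0.93` -/
lemma bad_case {n : ℕ} [NeZero n] (hn : 3 ≤ n) (d1 : ∀ r : Fin n, r - 1 ≠ r)
    (d2 : ∀ r : Fin n, r ≠ r + 1) (d3 : ∀ r : Fin n, r - 1 ≠ r + 1) {x : ℝ} {a b : Fin n → ℝ}
    (hx : |x| ≤ π) (hP : PO n a b) (h : ∃ r, 0.93 < a r - b r ∨ 0.93 < a (r + 1) - b r) :
    HH n x (1 / 2) a b ≤ 1.8446 + (n - 3) * 0.6744 - 1 / 2 := by
  obtain ⟨r, hr⟩ := h
  unfold Pool.Agent.Y472.K.HH
  have hall : ∀ s : Fin n, Ep x (1 / 2) (a s) (b s) ≤ 0.3372 ∧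
      Ep x (1 / 2) (a (s + 1)) (b s) ≤ 0.3372 := fun s =>
    ⟨all_le hJ hG1 hG2 hG5 hx (hP.nn s) (hP.le s) (hP.le1 s),
      all_le hJ hG1 hG2 hG5 hx (hP.nn s) (hP.le' s) (hP.le1 (s + 1))⟩
  have key := sum3 hn (fun s => Ep x (1 / 2) (a s) (b s) + Ep x (1 / 2) (a (s + 1)) (b s)) r
    1.8446 0.6744 (d1 r) (d2 r) (d3 r) ?_ ?_
  · linarith
  · simp only [sub_add_cancel]
    rcases hr with hr | hr
    · have hb : b r ≤ 0.07 := by
        have := hP.le1 r
        norm_num at hr ⊢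
        linarith
      have ha : 0.93 ≤ a r := by
        have := hP.nn r
        norm_num at hr ⊢
        linarith
      have e1 := bad_le hJ hG1 hG2 hx (hP.nn r) (hP.le1 r) hr
      have e2 := two_b hJ hG1 hG2 hG5 hx (hP.nn r) (hP.nn (r + 1)) (hP.le' r) (hP.le (r + 1))
        (hP.le1 (r + 1)) hb
      have hle := hP.le' (r - 1)
      rw [sub_add_cancel] at hle
      have e3 := two_a hJ hG1 hG2 hG5 hx (hP.nn (r - 1)) hle (hP.le (r - 1)) (hP.le1 r)
        (hP.le1 (r - 1)) ha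
      have e4 := (hall (r + 1)).2
      norm_num at e1 e2 e3 e4 ⊢
      linarith
    · have hb : b r ≤ 0.07 := by
        have := hP.le1 (r + 1)
        norm_num at hr ⊢
        linarith
      have ha : 0.93 ≤ a (r + 1) := by
        have := hP.nn r
        norm_num at hr ⊢
        linarith
      have e1 := bad_le hJ hG1 hG2 hx (hP.nn r) (hP.le1 (r + 1)) hr
      have hle := hP.le' (r - 1)
      rw [sub_add_cancel] at hle
      have e2 := two_b hJ hG1 hG2 hG5 hx (hP.nn r) (hP.nn (r - 1)) (hP.le r) hle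
        (hP.le1 r) hb
      have e3 := two_a hJ hG1 hG2 hG5 hx (hP.nn (r + 1)) (hP.le (r + 1)) (hP.le' (r + 1))
        (hP.le1 (r + 1)) (hP.le1 (r + 1 + 1)) ha
      have e4 := (hall (r - 1)).1
      norm_num at e1 e2 e3 e4 ⊢
      linarith
  · intro s
    have := hall s
    norm_num at this ⊢
    linarith [this.1, this.2]

end Half

/-! ### The reduction to inequalities between numbers -/

theorem star_of (hPAR : S_PAR) (hJ : S_JEN) (hG1 : S_G1) (hG2 : S_G2) (hG3 : S_G3)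
    (hG5 : S_G5) (n : ℕ) [NeZero n] (hn : 4 ≤ n) (d1 : ∀ r : Fin n, r - 1 ≠ r)
    (d2 : ∀ r : Fin n, r ≠ r + 1) (d3 : ∀ r : Fin n, r - 1 ≠ r + 1)
    (k1 : ee (Ch n) 0.93 < Es n) (k2 : Th (Ch n) (1 / 4) < Es n)
    (k3 : 1.8446 + ((n : ℝ) - 3) * 0.6744 - 1 / 2 < Dn n) : STAR n := by
  intro a b hP hne
  obtain ⟨h1, h2, h3, h4, h5, h6, h7, h8, -⟩ := hPAR n hn
  obtain ⟨δ₁, g1, g2, g3, g4, g5, g6, g7⟩ := hG3 hPAR hJ n hn
  have hs : Es n = ee (Ch n) (1 - 2 * bs n) := by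
    have h := (hG2 (yn n) (1 - bs n) (bs n) h5 (by linarith) (by linarith) (by linarith)
      (by linarith)).2.2 (by ring)
    rw [h6] at h
    rw [Pool.Agent.Y472.K.Es, h]
    congr 1
    ring
  by_cases hbad : ∃ r, 0.93 < a r - b r ∨ 0.93 < a (r + 1) - b r
  · refine ⟨1 / 2, by norm_num, fun x hx => ?_⟩
    have hx' : |x| ≤ π := abs_le.2 ⟨hx.1, hx.2⟩
    exact lt_of_le_of_lt (bad_case hJ hG1 hG2 hG5 (by omega) d1 d2 d3 hx' hP hbad) k3
  · push Not at hbad
    -- the symmetric pairs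
    have e3 : ∀ δ : ℝ, 0 ≤ δ → δ ≤ 0.93 → ee (Ch n) δ ≤ Es n ∧
        (δ ≠ 1 - 2 * bs n → ee (Ch n) δ < Es n) := by
      intro δ d0 d1
      have key : δ ≠ 1 - 2 * bs n → ee (Ch n) δ < Es n := by
        intro hne
        rcases lt_or_gt_of_ne hne with h | h
        · rw [hs]
          exact g4 ⟨d0, h.le⟩ ⟨by linarith, le_rfl⟩ h
        · rcases le_or_gt δ δ₁ with h' | h'
          · rw [hs]
            exact g5 ⟨le_rfl, g1.le⟩ ⟨h.le, h'⟩ h
          · have h0 := g6.monotoneOn ⟨h'.le, by norm_num at d1 ⊢; linarith⟩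
              (⟨h'.le.trans d1, by norm_num⟩ : (0.93 : ℝ) ∈ Icc δ₁ 1) d1
            exact lt_of_le_of_lt h0 k1
      refine ⟨?_, key⟩
      by_cases h : δ = 1 - 2 * bs n
      · rw [h, hs]
      · exact (key h).le
    -- all the pairs
    have hpair : ∀ x a' b' : ℝ, |x| ≤ π → 0 ≤ b' → b' ≤ a' → a' ≤ 1 → a' - b' ≤ 0.93 →
        Ep x (yn n) a' b' ≤ Es n ∧
          (¬ (a' = 1 - bs n ∧ b' = bs n) → Ep x (yn n) a' b' < Es n) := by
      intro x a' b' hx hb hba ha hd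
      by_cases hc : b' ≤ 1 / 2 ∧ 1 / 2 ≤ a'
      · obtain ⟨c1, c2⟩ := hc
        have e1 := Ep_x hJ hG1 h5 hx hb c1 c2 ha
        have e2 := hG2 (yn n) a' b' h5 hb c1 c2 ha
        rw [h6] at e2
        obtain ⟨f1, f2⟩ := e3 (a' - b') (by linarith) hd
        refine ⟨e1.trans (e2.1.trans f1), fun hne => ?_⟩
        by_cases hs : a' + b' = 1
        · have : a' - b' ≠ 1 - 2 * bs n := by
            intro h
            apply hne
            constructor <;> linarith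
          exact lt_of_le_of_lt (e1.trans e2.1) (f2 this)
        · exact lt_of_le_of_lt e1 (lt_of_lt_of_le (e2.2.1 hs) f1)
      · have hc' : a' ≤ 1 / 2 ∨ 1 / 2 ≤ b' := by
          by_contra h
          push Not at h
          exact hc ⟨h.2.le, h.1.le⟩
        have e1 := one_sided hG5 (x := x) h5 hb hba ha hc'
        rw [h6] at e1
        have e2 := lt_of_le_of_lt e1 k2
        exact ⟨e2.le, fun _ => e2⟩
    refine ⟨yn n, h5, fun x hx => ?_⟩
    have hx' : |x| ≤ π := abs_le.2 ⟨hx.1, hx.2⟩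
    have hs1 : ∑ r, (Ep x (yn n) (a r) (b r) + Ep x (yn n) (a (r + 1)) (b r)) <
        ∑ _r : Fin n, (Es n + Es n) := by
      apply Finset.sum_lt_sum
      · intro r _
        exact add_le_add (hpair x _ _ hx' (hP.nn r) (hP.le r) (hP.le1 r) (hbad r).1).1
          (hpair x _ _ hx' (hP.nn r) (hP.le' r) (hP.le1 (r + 1)) (hbad r).2).1
      · obtain ⟨r, hr⟩ := not_forall.1 hne
        exact ⟨r, Finset.mem_univ _, add_lt_add_of_lt_of_le
          ((hpair x _ _ hx' (hP.nn r) (hP.le r) (hP.le1 r) (hbad r).1).2 hr)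
          (hpair x _ _ hx' (hP.nn r) (hP.le' r) (hP.le1 (r + 1)) (hbad r).2).1⟩
    rw [Finset.sum_const, Finset.card_univ, Fintype.card_fin, nsmul_eq_mul] at hs1
    unfold Pool.Agent.Y472.K.HH Pool.Agent.Y472.K.Dn
    linarith

/-! ### Numbers -/

lemma cosh_lo (Y : ℝ) : 1 + Y ^ 2 / 2 + Y ^ 4 / 24 + Y ^ 6 / 720 ≤ Real.cosh Y := by
  have h := sum_le_hasSum (Finset.range 4) (fun i _ => by rw [pow_mul]; positivity)
    (Real.hasSum_cosh Y)
  simp only [Finset.sum_range_succ, Finset.sum_range_zero, Nat.factorial] at h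
  norm_num at h ⊢
  linarith

lemma yn_le {y C Y : ℝ} (hy : 0 < y) (hc : Real.cosh y = C) (hY : 0 ≤ Y)
    (h : C ≤ 1 + Y ^ 2 / 2 + Y ^ 4 / 24 + Y ^ 6 / 720) : y ≤ Y := by
  have h1 := h.trans (cosh_lo Y)
  rw [← hc, Real.cosh_le_cosh, abs_of_pos hy, abs_of_nonneg hY] at h1
  exact h1

lemma log07 : Real.log (2 * π * 0.07) ≤ -0.8213 := by
  have h1 := Real.pi_lt_d4
  have h2 := log_tan (x₀ := 4 / 9) (x := 2 * π * 0.07)
    (L := 2 * Real.log 2 - 2 * Real.log 3) (by norm_num) (by positivity) (by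
      rw [Real.log_div (by norm_num) (by norm_num), show (9 : ℝ) = 3 ^ 2 by norm_num,
        show (4 : ℝ) = 2 ^ 2 by norm_num, Real.log_pow, Real.log_pow]
      norm_num)
  have h5 := Real.log_two_lt_d9
  have h6 := log3_lo
  norm_num at h1 h2 h5 h6 ⊢
  linarith

lemma Th_quarter {C : ℝ} (hC : 1 < C) : Th C (1 / 4) ≤ 0.17616 + C / 8 := by
  have hpi := Real.pi_pos
  have h2 := Th_ub (C := C) (p := 0) (q := 1 / 4) (x₀ := 4)
    (L := 2 * Real.log 2) hC (by norm_num) (by norm_num) (by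
      rw [show (4 : ℝ) = 2 ^ 2 by norm_num, Real.log_pow]; norm_num)
  rw [show 2 * π * (1 / 4) = π / 2 by ring, Real.sin_pi_div_two, mul_zero, Real.sin_zero] at h2
  have h3 : ((1 : ℝ) - 0) / π ≤ 0.31831 := by
    rw [div_le_iff₀ hpi]
    have := Real.pi_gt_d6
    norm_num at this ⊢
    linarith
  have h5 := Real.log_two_lt_d9
  unfold Th
  norm_num at h2 h3 h5 ⊢
  linarith

lemma ee_093 {y Λ : ℝ} (hJ : S_JEN) (hy : 0 < y) (hΛ : -Λ ≤ Real.log (2 * Real.cosh y - 2)) :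
    ee (Real.cosh y) 0.93 ≤ y / 2 + 0.07 * (Λ / 2 - 1.8213) := by
  have h := ee_top (η := 0.07) hJ hy (by norm_num) (by norm_num) hΛ
  rw [show (1 : ℝ) - 0.07 = 0.93 by norm_num] at h
  have h1 := log07
  refine h.trans ?_
  have : (0.07 : ℝ) * (Λ / 2 - 1 + Real.log (2 * π * 0.07)) ≤ 0.07 * (Λ / 2 - 1.8213) := by
    apply mul_le_mul_of_nonneg_left _ (by norm_num)
    norm_num at h1 ⊢
    linarith
  linarith

lemma Es_ge (hPAR : S_PAR) (hJ : S_JEN) (hG2 : S_G2) (hG3 : S_G3) {n : ℕ} (hn : 4 ≤ n) :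
    ee (Ch n) (3 / 8) ≤ Es n := by
  have hpi := Real.pi_pos
  obtain ⟨h1, h2, h3, h4, h5, h6, h7, h8, -⟩ := hPAR n hn
  obtain ⟨δ₁, g1, g2, g3, g4, g5, g6, g7⟩ := hG3 hPAR hJ n hn
  have hs : Es n = ee (Ch n) (1 - 2 * bs n) := by
    have h := (hG2 (yn n) (1 - bs n) (bs n) h5 (by linarith) (by linarith) (by linarith)
      (by linarith)).2.2 (by ring)
    rw [h6] at h
    rw [Pool.Agent.Y472.K.Es, h]
    congr 1
    ring
  have hd : 3 / 8 ≤ δ₁ := by
    by_contra hcon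
    push Not at hcon
    have h9 : 0 ≤ Real.cos (π * δ₁) := Real.cos_nonneg_of_neg_pi_div_two_le_of_le
      (by nlinarith) (by nlinarith)
    rw [g3] at h9
    have := Real.sqrt_nonneg (17 - 8 * Ch n)
    linarith
  rw [hs]
  rcases le_total (3 / 8) (1 - 2 * bs n) with h | h
  · exact g4.monotoneOn ⟨by norm_num, h⟩ ⟨by linarith, le_rfl⟩ h
  · exact g5.antitoneOn ⟨le_rfl, g1.le⟩ ⟨h, hd⟩ h

/-- the three inequalities -/
lemma num_of (hPAR : S_PAR) (hJ : S_JEN) (hG2 : S_G2) (hG3 : S_G3) {n : ℕ} (hn : 4 ≤ n)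
    {Cl Cu Y m M α l Λ E : ℝ} (c1 : Cl ≤ Ch n) (c2 : Ch n ≤ Cu) (hY0 : 0 ≤ Y)
    (hY : Cu ≤ 1 + Y ^ 2 / 2 + Y ^ 4 / 24 + Y ^ 6 / 720) (hl : 0 ≤ l) (hm : 0 < m)
    (e1 : α + l * m ≤ Real.log m) (e2 : α + l * M ≤ Real.log M)
    (e3 : m ≤ 2 * Cl + 0.76536) (e4 : 2 * Cu + 2 ≤ M)
    (hE : E ≤ 0.0832 + (3 / 16 * α + l * (3 / 8 * Cl + 0.29407)))
    (hΛ : -Λ ≤ Real.log (2 * Ch n - 2)) (n1 : Y / 2 + 0.07 * (Λ / 2 - 1.8213) < E)
    (n2 : 0.17616 + Cu / 8 < E)
    (n3 : 1.8446 + ((n : ℝ) - 3) * 0.6744 - 1 / 2 < 2 * n * E - Y) :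
    ee (Ch n) 0.93 < Es n ∧ Th (Ch n) (1 / 4) < Es n ∧
      1.8446 + ((n : ℝ) - 3) * 0.6744 - 1 / 2 < Dn n := by
  obtain ⟨h1, h2, h3, h4, h5, h6, h7, h8, -⟩ := hPAR n hn
  have hEs : E ≤ Es n := by
    refine le_trans ?_ (Es_ge hPAR hJ hG2 hG3 hn)
    refine le_trans ?_ (ee38 h3 hl hm e1 e2 (by linarith) (by linarith))
    have := mul_le_mul_of_nonneg_left (show 3 / 8 * Cl + 0.29407 ≤ 3 / 8 * Ch n + 0.29407 by
      linarith) hl
    linarith
  have hy : yn n ≤ Y := yn_le h5 h6 hY0 (c2.trans hY)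
  refine ⟨?_, ?_, ?_⟩
  · rw [← h6] at hΛ
    have h := ee_093 hJ h5 hΛ
    rw [h6] at h
    linarith
  · have h := Th_quarter h3
    linarith
  · unfold Pool.Agent.Y472.K.Dn
    have : 2 * (n : ℝ) * E ≤ 2 * n * Es n := mul_le_mul_of_nonneg_left hEs (by positivity)
    linarith

lemma Ch5 : Ch 5 = 3 / 2 := by
  unfold Pool.Agent.Y472.K.Ch Pool.Agent.Y472.K.ga
  have h5 : (√5 : ℝ) ^ 2 = 5 := Real.sq_sqrt (by norm_num)
  rw [show π / ((5 : ℕ) : ℝ) = π / 5 by norm_num, Real.cos_pi_div_five]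
  nlinarith

lemma Ch6 : 1.366 ≤ Ch 6 ∧ Ch 6 ≤ 1.36603 := by
  unfold Pool.Agent.Y472.K.Ch Pool.Agent.Y472.K.ga
  have h5 : (√3 : ℝ) ^ 2 = 3 := Real.sq_sqrt (by norm_num)
  have h := sqrt3_b
  rw [show π / ((6 : ℕ) : ℝ) = π / 6 by norm_num, Real.cos_pi_div_six]
  constructor <;> nlinarith [h.1, h.2]

lemma Ch7 : 1.2763 ≤ Ch 7 ∧ Ch 7 ≤ 1.2819 := by
  unfold Pool.Agent.Y472.K.Ch Pool.Agent.Y472.K.ga
  rw [show π / ((7 : ℕ) : ℝ) = π / 7 by norm_num]
  have hpi := Real.pi_pos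
  have p1 := Real.pi_gt_d4
  have p2 := Real.pi_lt_d4
  have h1 := Real.one_sub_sq_div_two_le_cos (x := π / 7)
  have h2 := Real.cos_bound (x := π / 7) (by rw [abs_of_pos (by positivity)]; linarith)
  rw [abs_of_pos (show 0 < π / 7 by positivity)] at h2
  have h3 := (abs_le.1 h2).2
  have q1 : (π / 7) ^ 2 ≤ 0.201425 := by
    have : (π / 7) ^ 2 ≤ (3.1416 / 7) ^ 2 := by
      apply pow_le_pow_left₀ (by positivity)
      linarith
    norm_num at this ⊢
    linarith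
  have q2 : 0.201408 ≤ (π / 7) ^ 2 := by
    have : (3.1415 / 7) ^ 2 ≤ (π / 7) ^ 2 := by
      apply pow_le_pow_left₀ (by norm_num)
      linarith
    norm_num at this ⊢
    linarith
  have q3 : (π / 7) ^ 4 ≤ 0.040573 := by
    have : ((π / 7) ^ 2) ^ 2 ≤ 0.201425 ^ 2 := by
      apply pow_le_pow_left₀ (by positivity) q1
    norm_num at this ⊢
    linarith
  have r1 : 0.89928 ≤ Real.cos (π / 7) := by
    norm_num at q1 h1 ⊢
    linarith
  have r2 : Real.cos (π / 7) ≤ 0.90141 := by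
    norm_num at q2 q3 h3 ⊢
    linarith
  constructor <;> nlinarith

/-- **TK-ST567** -/
theorem st567 : S_PAR → S_JEN → S_G1 → S_G2 → S_G3 → S_G5 → STAR 5 ∧ STAR 6 ∧ STAR 7 := by
  intro hPAR hJ hG1 hG2 hG3 hG5
  have l2 := Real.log_two_gt_d9
  have l2' := Real.log_two_lt_d9
  have l3 := log3_lo
  have l3' := log3_hi
  have l5 := log5_lo
  have l5' := log5_hi
  norm_num at l2 l2' l3 l3' l5 l5'
  refine ⟨?_, ?_, ?_⟩
  · have hC := Ch5
    obtain ⟨k1, k2, k3⟩ := num_of hPAR hJ hG2 hG3 (n := 5) (Cl := 3 / 2) (Cu := 3 / 2)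
      (Y := 0.9625) (m := 15 / 4) (M := 5) (α := 0.4587) (l := 0.2301) (Λ := 0) (E := 0.3663)
      (by norm_num) hC.ge hC.le (by norm_num) (by norm_num) (by norm_num) (by norm_num)
      (by
        rw [Real.log_div (by norm_num) (by norm_num), show (15 : ℝ) = 3 * 5 by norm_num,
          Real.log_mul (by norm_num) (by norm_num), show (4 : ℝ) = 2 ^ 2 by norm_num,
          Real.log_pow]
        norm_num
        linarith)
      (by norm_num; linarith) (by norm_num) (by norm_num) (by norm_num)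
      (by rw [hC]; norm_num) (by norm_num) (by norm_num) (by norm_num)
    exact star_of hPAR hJ hG1 hG2 hG3 hG5 5 (by norm_num) (by decide) (by decide) (by decide)
      k1 k2 k3
  · have hC := Ch6
    obtain ⟨k1, k2, k3⟩ := num_of hPAR hJ hG2 hG3 (n := 6) (Cl := 1.366) (Cu := 1.36603)
      (Y := 0.832) (m := 125 / 36) (M := 128 / 27) (α := 0.3923) (l := 0.2454) (Λ := 0.3662)
      (E := 0.3546)
      (by norm_num) hC.1 hC.2 (by norm_num) (by norm_num) (by norm_num) (by norm_num)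
      (by
        rw [Real.log_div (by norm_num) (by norm_num), show (36 : ℝ) = 2 ^ 2 * 3 ^ 2 by norm_num,
          Real.log_mul (by norm_num) (by norm_num), show (125 : ℝ) = 5 ^ 3 by norm_num,
          Real.log_pow, Real.log_pow, Real.log_pow]
        norm_num
        linarith)
      (by
        rw [Real.log_div (by norm_num) (by norm_num), show (128 : ℝ) = 2 ^ 7 by norm_num,
          show (27 : ℝ) = 3 ^ 3 by norm_num, Real.log_pow, Real.log_pow]
        norm_num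
        linarith) (by norm_num) (by norm_num) (by norm_num)
      (by
        have h1 : Real.log 0.732 ≤ Real.log (2 * Ch 6 - 2) :=
          Real.log_le_log (by norm_num) (by have := hC.1; norm_num at this ⊢; linarith)
        have h2 := Real.one_sub_inv_le_log_of_pos (show (0 : ℝ) < 0.732 by norm_num)
        norm_num at h1 h2 ⊢
        linarith) (by norm_num) (by norm_num) (by norm_num)
    exact star_of hPAR hJ hG1 hG2 hG3 hG5 6 (by norm_num) (by decide) (by decide) (by decide)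
      k1 k2 k3
  · have hC := Ch7
    obtain ⟨k1, k2, k3⟩ := num_of hPAR hJ hG2 hG3 (n := 7) (Cl := 1.2763) (Cu := 1.2819)
      (Y := 0.7345) (m := 16 / 5) (M := 75 / 16) (α := 0.3418) (l := 0.2566) (Λ := 0.81)
      (E := 0.3455)
      (by norm_num) hC.1 hC.2 (by norm_num) (by norm_num) (by norm_num) (by norm_num)
      (by
        rw [Real.log_div (by norm_num) (by norm_num), show (16 : ℝ) = 2 ^ 4 by norm_num,
          Real.log_pow]
        norm_num
        linarith)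
      (by
        rw [Real.log_div (by norm_num) (by norm_num), show (75 : ℝ) = 3 * 5 ^ 2 by norm_num,
          Real.log_mul (by norm_num) (by norm_num), show (16 : ℝ) = 2 ^ 4 by norm_num,
          Real.log_pow, Real.log_pow]
        norm_num
        linarith) (by norm_num) (by norm_num) (by norm_num)
      (by
        have h1 : Real.log 0.5526 ≤ Real.log (2 * Ch 7 - 2) :=
          Real.log_le_log (by norm_num) (by have := hC.1; norm_num at this ⊢; linarith)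
        have h2 := Real.one_sub_inv_le_log_of_pos (show (0 : ℝ) < 0.5526 by norm_num)
        norm_num at h1 h2 ⊢
        linarith) (by norm_num) (by norm_num) (by norm_num)
    exact star_of hPAR hJ hG1 hG2 hG3 hG5 7 (by norm_num) (by decide) (by decide) (by decide)
      k1 k2 k3

end Pool.Agent.Y739.TK
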