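import Pool.Agent.Y739.TK.Num2

/-!
# Turk's head knots (project of helper472): the line of the height `1/2`
(job TK-ST567)
-/

set_option autoImplicit false

namespace Pool.Agent.Y739.TK

open Set Filter Topology MeasureTheory intervalIntegral
open scoped Real Interval
open Pool.Agent.Y472.K (Lc lf Ep ga Ch yn bs Es Dn ee S_PAR S_JEN S_G1 S_G2 S_G3 S_G5)
open Pool.Agent.Y813.TK (ps ph ps_cont ph_cont ph_reflect ps_neg ps_pos_arg ph_int_half
  ls_int Lc_cont Lc_deriv Lc_one ee_cont ee_deriv ee_one der_pos der_neg int_lf lf_zero)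

/-- `cosh (1/2)` -/
lemma Cq_b : 1.1276 < Real.cosh (1 / 2) ∧ Real.cosh (1 / 2) < 1.1277 := by
  have h1 := Real.exp_one_gt_d9
  have h2 := Real.exp_one_lt_d9
  have h3 : Real.exp (1 / 2) ^ 2 = Real.exp 1 := by
    rw [← Real.exp_nat_mul]; norm_num
  have h4 : Real.exp (1 / 2) * Real.exp (-(1 / 2)) = 1 := by
    rw [← Real.exp_add]; norm_num
  have h5 := Real.exp_pos (1 / 2)
  have h6 := Real.exp_pos (-(1 / 2))
  rw [Real.cosh_eq]
  set z := Real.exp (1 / 2)
  set w := Real.exp (-(1 / 2))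
  have h7 : 1.64872 < z := by
    by_contra h
    push Not at h
    nlinarith
  have h8 : z < 1.64873 := by
    by_contra h
    push Not at h
    nlinarith
  have h9 : 0.60652 < w := by
    by_contra h
    push Not at h
    nlinarith
  have h10 : w < 0.60654 := by
    by_contra h
    push Not at h
    nlinarith
  constructor
  · linarith
  · linarith

lemma Cq_gt : 1 < Real.cosh (1 / 2) := by
  have := Cq_b.1
  linarith

/-- `log (2 C - 2) > -1.366` -/
lemma log_m : -1.366 ≤ Real.log (2 * Real.cosh (1 / 2) - 2) := by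
  have h1 := Cq_b.1
  have h2 : Real.log 0.2552 ≤ Real.log (2 * Real.cosh (1 / 2) - 2) :=
    Real.log_le_log (by norm_num) (by linarith)
  have h3 := Real.one_sub_inv_le_log_of_pos (show (0 : ℝ) < 1.0208 by norm_num)
  have h4 : Real.log 0.2552 = Real.log 1.0208 - 2 * Real.log 2 := by
    rw [show (0.2552 : ℝ) = 1.0208 / 2 ^ 2 by norm_num, Real.log_div (by norm_num) (by norm_num),
      Real.log_pow]
    norm_num
  have h5 := Real.log_two_lt_d9
  norm_num at h3 h5 h4 h2 ⊢
  linarith

/-- `log (2 C + 2) < 1.4484` -/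
lemma log_p : Real.log (2 * Real.cosh (1 / 2) + 2) ≤ 1.4484 := by
  have h1 := Cq_b.2
  have h2 := log_tan (x₀ := 64 / 15) (x := 2 * Real.cosh (1 / 2) + 2)
    (L := 6 * Real.log 2 - Real.log 3 - Real.log 5) (by norm_num) (by linarith [Cq_gt]) (by
      rw [Real.log_div (by norm_num) (by norm_num), show (64 : ℝ) = 2 ^ 6 by norm_num,
        show (15 : ℝ) = 3 * 5 by norm_num, Real.log_pow, Real.log_mul (by norm_num) (by norm_num)]
      norm_num)
  have h5 := Real.log_two_lt_d9
  have h6 := log3_lo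
  have h7 := log5_lo
  norm_num at h5 h6 h7 h1 h2 ⊢
  linarith

/-- `log (2 C) < 0.8135` -/
lemma log_0 : Real.log (2 * Real.cosh (1 / 2)) ≤ 0.8135 := by
  have h1 := Cq_b.2
  have h2 := log_tan (x₀ := 9 / 4) (x := 2 * Real.cosh (1 / 2))
    (L := 2 * Real.log 3 - 2 * Real.log 2) (by norm_num) (by linarith [Cq_gt]) (by
      rw [Real.log_div (by norm_num) (by norm_num), show (9 : ℝ) = 3 ^ 2 by norm_num,
        show (4 : ℝ) = 2 ^ 2 by norm_num, Real.log_pow, Real.log_pow]
      norm_num)
  have h5 := Real.log_two_gt_d9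
  have h6 := log3_hi
  norm_num at h5 h6 h1 h2 ⊢
  linarith

/-- the integral over `[0, 1/6]` -/
lemma Th6 : Th (Real.cosh (1 / 2)) (1 / 6) ≤ 0.22729 := by
  have hpi := Real.pi_pos
  have h1 := Cq_b.2
  have h2 := Th_ub (C := Real.cosh (1 / 2)) (p := 0) (q := 1 / 6) (x₀ := 4)
    (L := 2 * Real.log 2) Cq_gt (by norm_num) (by norm_num) (by
      rw [show (4 : ℝ) = 2 ^ 2 by norm_num, Real.log_pow]; norm_num)
  rw [show 2 * π * (1 / 6) = π / 3 by ring, Real.sin_pi_div_three, mul_zero, Real.sin_zero] at h2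
  have h3 : (√3 / 2 - 0) / π ≤ 0.27567 := by
    rw [div_le_iff₀ hpi]
    have := sqrt3_b.2
    have := Real.pi_gt_d6
    linarith
  have h5 := Real.log_two_lt_d9
  unfold Th
  norm_num at h1 h2 h3 h5 ⊢
  linarith

/-- the bound for pairs on one side -/
lemma Th4 : Th (Real.cosh (1 / 2)) (1 / 4) ≤ 0.3122 := by
  have hpi := Real.pi_pos
  have h1 := Cq_b.2
  have h0 := Th6
  rw [Th_diff Cq_gt (1 / 6) (1 / 4)]
  have h2 := Th_ub (C := Real.cosh (1 / 2)) (p := 1 / 6) (q := 1 / 4) (x₀ := Real.exp 1)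
    (L := 1) Cq_gt (by norm_num) (Real.exp_pos 1) (by rw [Real.log_exp])
  rw [show 2 * π * (1 / 6) = π / 3 by ring, Real.sin_pi_div_three,
    show 2 * π * (1 / 4) = π / 2 by ring, Real.sin_pi_div_two] at h2
  have h3 : (1 - √3 / 2) / π ≤ 0.04266 := by
    rw [div_le_iff₀ hpi]
    have := sqrt3_b.1
    have := Real.pi_gt_d6
    linarith
  have h4 : (Real.exp 1)⁻¹ ≤ 0.36788 := by
    rw [inv_le_comm₀ (Real.exp_pos 1) (by norm_num)]
    have := Real.exp_one_gt_d9
    norm_num at this ⊢
    linarith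
  have h5 : 0 ≤ (1 - √3 / 2) / π := by
    apply div_nonneg _ hpi.le
    have := sqrt3_b.2
    linarith
  have h6 : (Real.exp 1)⁻¹ * (2 * Real.cosh (1 / 2) * (1 / 4 - 1 / 6) + (1 - √3 / 2) / π) ≤
      0.36788 * (2 * 1.1277 * (1 / 4 - 1 / 6) + 0.04266) := by
    apply mul_le_mul h4
    · linarith
    · have := Cq_gt
      linarith
    · norm_num
  norm_num at h0 h2 h6 ⊢
  linarith

/-- the bad pair -/
lemma eeP {δ : ℝ} (hJ : S_JEN) (h0 : 5 / 6 ≤ δ) (h1 : δ ≤ 1) :
    ee (Real.cosh (1 / 2)) δ ≤ 1 / 4 := by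
  have hpi := Real.pi_pos
  rcases eq_or_lt_of_le h1 with h | h
  · rw [h, ee_one hJ (by norm_num)]; norm_num
  · have h2 := ee_top (y := 1 / 2) (η := 1 - δ) (Λ := 1.366) hJ (by norm_num) (by linarith)
      (by linarith) log_m
    rw [sub_sub_cancel] at h2
    have h3 : Real.log (2 * π * (1 - δ)) ≤ 2 * π * (1 - δ) - 1 :=
      Real.log_le_sub_one_of_pos (by have : 0 < 1 - δ := by linarith
                                     positivity)
    have h4 : 2 * π * (1 - δ) ≤ 1.06 := by
      have := Real.pi_lt_d2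
      nlinarith
    have h5 : (1 - δ) * (1.366 / 2 - 1 + Real.log (2 * π * (1 - δ))) ≤ 0 := by
      apply mul_nonpos_of_nonneg_of_nonpos (by linarith)
      norm_num at h4 ⊢
      linarith
    linarith

/-- `ee` decreases on `[3/8, 5/6]` -/
lemma ee_anti : StrictAntiOn (ee (Real.cosh (1 / 2))) (Icc (3 / 8) (5 / 6)) := by
  have hpi := Real.pi_pos
  apply strictAntiOn_of_deriv_neg (convex_Icc _ _) (ee_cont Cq_gt).continuousOn
  intro δ hδ
  rw [interior_Icc] at hδ
  apply der_neg Cq_gt (by linarith [hδ.1]) (by linarith [hδ.2])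
  have h1 : Real.cos (π * δ) < Real.cos (π * (3 / 8)) :=
    Real.cos_lt_cos_of_nonneg_of_le_pi (by positivity) (by nlinarith [hδ.2])
      (by nlinarith [hδ.1])
  have h2 : Real.cos (π * (5 / 6)) < Real.cos (π * δ) :=
    Real.cos_lt_cos_of_nonneg_of_le_pi (by have := hδ.1; nlinarith) (by nlinarith [hδ.2])
      (by nlinarith [hδ.2])
  rw [cos38] at h1
  rw [show π * (5 / 6) = π - π / 6 by ring, Real.cos_pi_sub, Real.cos_pi_div_six] at h2
  have h3 := sqrt3_b.2
  have h4 := sin8_b.2
  have h5 := Cq_b.2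
  have h6 : Real.cos (π * δ) < 0.3827 := by linarith
  have h7 : -0.8661 < Real.cos (π * δ) := by linarith
  nlinarith

/-- the maximal rate on the line of the height `1/2` -/
lemma eeS {δ : ℝ} (hJ : S_JEN) (h0 : 0 ≤ δ) (h1 : δ ≤ 1) :
    ee (Real.cosh (1 / 2)) δ ≤ 0.3372 := by
  have hpi := Real.pi_pos
  have hC := Cq_gt
  have hC1 := Cq_b.1
  have hC2 := Cq_b.2
  have e0 : ee (Real.cosh (1 / 2)) (1 / 3) ≤ 0.33531 := by
    rw [ee_eq, show (1 / 3 : ℝ) / 2 = 1 / 6 by norm_num]
    have := Lc_third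
    have := Th6
    linarith
  have e1 : ∀ δ ∈ Icc (1 / 3 : ℝ) (3 / 8), ee (Real.cosh (1 / 2)) δ ≤ 0.3372 := by
    intro δ hδ
    have h := (convex_Icc (1 / 3 : ℝ) (3 / 8)).image_sub_le_mul_sub_of_deriv_le
      (f := ee (Real.cosh (1 / 2))) (ee_cont hC).continuousOn (by
        intro x hx
        rw [interior_Icc] at hx
        exact (ee_deriv hC (by linarith [hx.1]) (by linarith [hx.2])).differentiableAt
          |>.differentiableWithinAt) (C := 0.0427) (by
        intro x hx
        rw [interior_Icc] at hx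
        rw [(ee_deriv hC (by linarith [hx.1]) (by linarith [hx.2])).deriv]
        have h2 : Real.cos (π * x) ≤ Real.cos (π / 3) :=
          Real.cos_le_cos_of_nonneg_of_le_pi (by positivity) (by nlinarith [hx.2])
            (by nlinarith [hx.1])
        rw [Real.cos_pi_div_three] at h2
        have h3 : Real.sin (π / 3) ≤ Real.sin (π * x) := by
          apply Real.sin_le_sin_of_le_of_le_pi_div_two
          · linarith
          · nlinarith [hx.2]
          · nlinarith [hx.1]
        rw [Real.sin_pi_div_three] at h3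
        have h4 : Real.log √3 ≤ Real.log (2 * Real.sin (π * x)) :=
          Real.log_le_log (by positivity) (by linarith)
        rw [Real.log_sqrt (by norm_num)] at h4
        have h5 : 0 ≤ Real.cos (π * x) := Real.cos_nonneg_of_neg_pi_div_two_le_of_le
          (by nlinarith [hx.1]) (by nlinarith [hx.2])
        have h6 := log_tan (x₀ := 3) (x := 2 * Real.cosh (1 / 2) + 2 * Real.cos (π * x))
          (L := Real.log 3) (by norm_num) (by linarith) le_rfl
        norm_num at h6 ⊢
        linarith) (1 / 3) (by norm_num) δ hδ hδ.1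
    have h3 := hδ.2
    norm_num at h e0 ⊢
    linarith
  rcases le_total δ (1 / 3) with h | h
  · have hm : StrictMonoOn (ee (Real.cosh (1 / 2))) (Icc 0 (1 / 3)) := by
      apply strictMonoOn_of_deriv_pos (convex_Icc _ _) (ee_cont hC).continuousOn
      intro δ hδ
      rw [interior_Icc] at hδ
      apply der_pos hC hδ.1 (by linarith [hδ.2])
      have h1 : Real.cos (π / 3) < Real.cos (π * δ) :=
        Real.cos_lt_cos_of_nonneg_of_le_pi (by have := hδ.1; positivity) (by linarith)
          (by nlinarith [hδ.2])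
      rw [Real.cos_pi_div_three] at h1
      nlinarith
    have := hm.monotoneOn ⟨h0, h⟩ ⟨by norm_num, le_rfl⟩ h
    norm_num at this e0 ⊢
    linarith
  · rcases le_total δ (3 / 8) with h' | h'
    · exact e1 δ ⟨h, h'⟩
    · rcases le_total δ (5 / 6) with h'' | h''
      · have := ee_anti.antitoneOn (left_mem_Icc.2 (by norm_num)) ⟨h', h''⟩ h'
        exact this.trans (e1 (3 / 8) (by constructor <;> norm_num))
      · have := eeP hJ h'' h1
        norm_num at this ⊢
        linarith

/-- the bound at `7/12` -/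
lemma ee712 : ee (Real.cosh (1 / 2)) (7 / 12) ≤ 0.2915 := by
  have hpi := Real.pi_pos
  have hC := Cq_gt
  have h1 : Th (Real.cosh (1 / 2)) (7 / 24) ≤ 0.3122 + (1 / 24) * 0.8135 := by
    have h := Th_step (C := Real.cosh (1 / 2)) (u := 1 / 4) (v := 7 / 24) (L := 0.8135) hC
      (by norm_num) (by
        intro s hs
        refine le_trans (Real.log_le_log (ps_pos_arg hC s) ?_) log_0
        have : Real.cos (2 * π * s) ≤ 0 := by
          apply Real.cos_nonpos_of_pi_div_two_le_of_le
          · nlinarith [hs.1]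
          · nlinarith [hs.2]
        linarith)
    have h2 := Th4
    norm_num at h h2 ⊢
    linarith
  have h2 : 0.0548 ≤ Lc (5 / 12) := by
    rw [Lc_eq]
    have h3 : ∫ t in (5 / 12 : ℝ)..(1 / 2), (0.6576 : ℝ) ≤
        ∫ t in (5 / 12 : ℝ)..(1 / 2), Real.log (2 * Real.sin (π * t)) := by
      apply intervalIntegral.integral_mono_on (by norm_num) (by simp) (ls_int _ _)
      intro t ht
      have h4 : 0.9657 ≤ Real.sin (π * t) := by
        rw [← Real.cos_pi_div_two_sub]
        have h5 := Real.one_sub_sq_div_two_le_cos (x := π / 2 - π * t)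
        have h6 : (π / 2 - π * t) ^ 2 ≤ (3.1416 / 12) ^ 2 := by
          apply sq_le_sq'
          · nlinarith [ht.2]
          · have := Real.pi_lt_d4
            nlinarith [ht.1]
        norm_num at h5 h6 ⊢
        linarith
      have h5 : Real.log (2 * 0.9657) ≤ Real.log (2 * Real.sin (π * t)) :=
        Real.log_le_log (by norm_num) (by linarith)
      have h6 := Real.one_sub_inv_le_log_of_pos (show (0 : ℝ) < 0.9657 by norm_num)
      rw [Real.log_mul (by norm_num) (by norm_num)] at h5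
      have h7 := Real.log_two_gt_d9
      norm_num at h5 h6 h7 ⊢
      linarith
    simp only [intervalIntegral.integral_const, smul_eq_mul] at h3
    norm_num at h3 ⊢
    linarith
  have h3 := Lc_reflect (5 / 12)
  rw [show (1 : ℝ) - 5 / 12 = 7 / 12 by norm_num] at h3
  rw [ee_eq, h3, show (7 / 12 : ℝ) / 2 = 7 / 24 by norm_num]
  norm_num at h1 h2 ⊢
  linarith

lemma eeM {δ : ℝ} (hJ : S_JEN) (h0 : 7 / 12 ≤ δ) (h1 : δ ≤ 1) :
    ee (Real.cosh (1 / 2)) δ ≤ 0.2915 := by
  rcases le_total δ (5 / 6) with h | h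
  · have := ee_anti.antitoneOn (show (7 / 12 : ℝ) ∈ Icc (3 / 8 : ℝ) (5 / 6) by
      constructor <;> norm_num) ⟨by linarith, h⟩ h0
    exact this.trans ee712
  · have := eeP hJ h h1
    norm_num at this ⊢
    linarith

/-- a straddling pair with an end point near `0` or `1`, close to `1/2` -/
lemma near {u v : ℝ} (hJ : S_JEN) (hu : 0 ≤ u) (hv : 0.43 ≤ v) (hv2 : v ≤ 1 / 2)
    (h : u + v ≤ 7 / 12) :
    Lc (u + v) + 1 / 2 * (Th (Real.cosh (1 / 2)) u + Th (Real.cosh (1 / 2)) v) ≤ 0.2915 := by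
  have hC := Cq_gt
  have hpi := Real.pi_pos
  have h1 : Th (Real.cosh (1 / 2)) u ≤ u * 1.4484 := by
    have h := Th_step (C := Real.cosh (1 / 2)) (u := 0) (v := u) (L := 1.4484) hC hu (by
      intro s hs
      refine le_trans (Real.log_le_log (ps_pos_arg hC s) ?_) log_p
      have := Real.cos_le_one (2 * π * s)
      linarith)
    have h0 : Th (Real.cosh (1 / 2)) 0 = 0 := by unfold Th; simp
    rw [h0] at h
    linarith
  have h2 := Th_top (y := 1 / 2) (v := v) (Λ := 1.366) hJ (by norm_num) hv2 log_m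
  rcases le_total (u + v) (1 / 2) with h3 | h3
  · have h4 := Lc_le (δ := u + v) (by linarith) h3
    have h5 := Real.log_two_lt_d9
    have h6 : (1 / 2 - (u + v)) * Real.log 2 ≤ (1 / 2 - (u + v)) * 0.6932 :=
      mul_le_mul_of_nonneg_left (by linarith) (by linarith)
    norm_num at h1 h2 h6 hv ⊢
    linarith
  · have h4 := Lc_nonpos (δ := u + v) h3 (by linarith)
    norm_num at h1 h2 hv ⊢
    linarith

end Pool.Agent.Y739.TK
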