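import Pool.Agent.Y813.TK.Ineq

/-!
# Turk's head knots (project of helper472): numerical bounds for the cases `n = 5, 6, 7`
(job TK-ST567)
-/

set_option autoImplicit false

namespace Pool.Agent.Y739.TK

open Set Filter Topology MeasureTheory intervalIntegral
open scoped Real Interval
open Pool.Agent.Y472.K (Lc lf Ep ga Ch yn bs Es Dn ee S_PAR S_JEN S_G1 S_G2 S_G3 S_G5)
open Pool.Agent.Y813.TK (ps ph ps_cont ph_cont ph_reflect ps_neg ps_pos_arg ph_int_half
  ls_int Lc_cont Lc_deriv Lc_one ee_cont ee_deriv ee_one der_pos der_neg int_lf lf_zero)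

/-! ### Logarithms -/

/-- lower bound by a chord -/
lemma log_chord {m M α l x : ℝ} (hm : 0 < m) (hx : m ≤ x) (hx2 : x ≤ M)
    (h1 : α + l * m ≤ Real.log m) (h2 : α + l * M ≤ Real.log M) :
    α + l * x ≤ Real.log x := by
  have hc : ConcaveOn ℝ (Ioi (0 : ℝ)) fun x => Real.log x - (α + l * x) := by
    apply strictConcaveOn_log_Ioi.concaveOn.sub
    refine ⟨convex_Ioi 0, ?_⟩
    intro u _ v _ a b _ _ hab
    simp only [smul_eq_mul]
    have : b = 1 - a := by linarith
    subst this
    apply le_of_eq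
    ring
  have h := hc.min_le_of_mem_Icc (x := m) (y := M) (z := x) hm (lt_of_lt_of_le hm (hx.trans hx2))
    ⟨hx, hx2⟩
  have h3 : 0 ≤ min (Real.log m - (α + l * m)) (Real.log M - (α + l * M)) :=
    le_min (by linarith) (by linarith)
  linarith

/-- upper bound by a tangent -/
lemma log_tan {x₀ x L : ℝ} (h0 : 0 < x₀) (hx : 0 < x) (hL : Real.log x₀ ≤ L) :
    Real.log x ≤ L - 1 + x₀⁻¹ * x := by
  have h := Real.log_le_sub_one_of_pos (div_pos hx h0)
  rw [Real.log_div hx.ne' h0.ne'] at h
  have : x / x₀ = x₀⁻¹ * x := by rw [div_eq_mul_inv, mul_comm]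
  linarith

lemma log3_lo : 1.0986 < Real.log 3 := by
  have h := Real.one_sub_inv_le_log_of_pos (show (0 : ℝ) < 3 ^ 12 / 2 ^ 19 by norm_num)
  rw [Real.log_div (by norm_num) (by norm_num), Real.log_pow, Real.log_pow] at h
  have := Real.log_two_gt_d9
  norm_num at h
  norm_num at this
  linarith

lemma log3_hi : Real.log 3 < 1.09863 := by
  have h := Real.log_le_sub_one_of_pos (show (0 : ℝ) < 3 ^ 12 / 2 ^ 19 by norm_num)
  rw [Real.log_div (by norm_num) (by norm_num), Real.log_pow, Real.log_pow] at h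
  have := Real.log_two_lt_d9
  norm_num at h
  norm_num at this
  linarith

lemma log5_lo : 1.6094 < Real.log 5 := by
  have h := Real.one_sub_inv_le_log_of_pos (show (0 : ℝ) < 5 ^ 28 / 2 ^ 65 by norm_num)
  rw [Real.log_div (by norm_num) (by norm_num), Real.log_pow, Real.log_pow] at h
  have := Real.log_two_gt_d9
  norm_num at h
  norm_num at this
  linarith

lemma log5_hi : Real.log 5 < 1.60945 := by
  have h := Real.log_le_sub_one_of_pos (show (0 : ℝ) < 5 ^ 28 / 2 ^ 65 by norm_num)
  rw [Real.log_div (by norm_num) (by norm_num), Real.log_pow, Real.log_pow] at h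
  have := Real.log_two_lt_d9
  norm_num at h
  norm_num at this
  linarith

/-! ### Integrals -/

/-- the integral of `2 C + 2 cos (2 π s)` -/
lemma int_A (C p q : ℝ) : ∫ s in p..q, (2 * C + 2 * Real.cos (2 * π * s)) =
    2 * C * (q - p) + (Real.sin (2 * π * q) - Real.sin (2 * π * p)) / π := by
  have hpi := Real.pi_pos
  have h : ∀ s ∈ [[p, q]], HasDerivAt (fun s => 2 * C * s + Real.sin (2 * π * s) / π)
      (2 * C + 2 * Real.cos (2 * π * s)) s := by
    intro s _
    have h1 : HasDerivAt (fun s => 2 * C * s) (2 * C) s := by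
      simpa using (hasDerivAt_id s).const_mul (2 * C)
    have h2 : HasDerivAt (fun s => 2 * π * s) (2 * π) s := by
      simpa using (hasDerivAt_id s).const_mul (2 * π)
    have h3 := (h2.sin).div_const π
    exact (h1.add h3).congr_deriv (by field_simp)
  rw [intervalIntegral.integral_eq_sub_of_hasDerivAt h
    (Continuous.intervalIntegrable (by fun_prop) _ _)]
  ring

/-- upper bound of the integral of `ps` -/
lemma Th_ub {C p q x₀ L : ℝ} (hC : 1 < C) (hpq : p ≤ q) (h0 : 0 < x₀) (hL : Real.log x₀ ≤ L) :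
    ∫ s in p..q, ps C s ≤ (q - p) * (L - 1) +
      x₀⁻¹ * (2 * C * (q - p) + (Real.sin (2 * π * q) - Real.sin (2 * π * p)) / π) := by
  have h1 : ∫ s in p..q, ps C s ≤
      ∫ s in p..q, ((L - 1) + x₀⁻¹ * (2 * C + 2 * Real.cos (2 * π * s))) := by
    apply intervalIntegral.integral_mono_on hpq ((ps_cont hC).intervalIntegrable _ _)
      (Continuous.intervalIntegrable (by fun_prop) _ _)
    intro s _
    exact log_tan h0 (ps_pos_arg hC s) hL
  rw [intervalIntegral.integral_add (by simp) (Continuous.intervalIntegrable (by fun_prop) _ _),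
    intervalIntegral.integral_const_mul, int_A, intervalIntegral.integral_const, smul_eq_mul] at h1
  exact h1

/-- lower bound of the integral of `ps` -/
lemma Th_lb {C p q m M α l : ℝ} (hC : 1 < C) (hpq : p ≤ q) (hm : 0 < m)
    (h1 : α + l * m ≤ Real.log m) (h2 : α + l * M ≤ Real.log M)
    (hA : ∀ s ∈ Icc p q, m ≤ 2 * C + 2 * Real.cos (2 * π * s) ∧
      2 * C + 2 * Real.cos (2 * π * s) ≤ M) :
    (q - p) * α + l * (2 * C * (q - p) + (Real.sin (2 * π * q) - Real.sin (2 * π * p)) / π) ≤
      ∫ s in p..q, ps C s := by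
  have h3 : ∫ s in p..q, (α + l * (2 * C + 2 * Real.cos (2 * π * s))) ≤
      ∫ s in p..q, ps C s := by
    apply intervalIntegral.integral_mono_on hpq
      (Continuous.intervalIntegrable (by fun_prop) _ _) ((ps_cont hC).intervalIntegrable _ _)
    intro s hs
    exact log_chord hm (hA s hs).1 (hA s hs).2 h1 h2
  rw [intervalIntegral.integral_add (by simp) (Continuous.intervalIntegrable (by fun_prop) _ _),
    intervalIntegral.integral_const_mul, int_A, intervalIntegral.integral_const, smul_eq_mul] at h3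
  exact h3

lemma int_S (p q : ℝ) : ∫ s in p..q, Real.sin (π * s) =
    (Real.cos (π * p) - Real.cos (π * q)) / π := by
  have hpi := Real.pi_pos
  have h : ∀ s ∈ [[p, q]], HasDerivAt (fun s => -(Real.cos (π * s) / π))
      (Real.sin (π * s)) s := by
    intro s _
    have h2 : HasDerivAt (fun s => π * s) π s := by
      simpa using (hasDerivAt_id s).const_mul π
    exact ((h2.cos).div_const π).neg.congr_deriv (by field_simp)
  rw [intervalIntegral.integral_eq_sub_of_hasDerivAt h
    (Continuous.intervalIntegrable (by fun_prop) _ _)]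
  ring

/-! ### The function `Lc` -/

lemma Lc_reflect (δ : ℝ) : Lc (1 - δ) = -Lc δ := by
  have h1 : Lc 1 - Lc (1 - δ) = Lc δ := by
    unfold Pool.Agent.Y472.K.Lc
    have e : ∫ t in (1 - δ)..1, Real.log (2 * Real.sin (π * t)) =
        ∫ t in (0 : ℝ)..δ, Real.log (2 * Real.sin (π * t)) := by
      have := intervalIntegral.integral_comp_sub_left (a := 0) (b := δ)
        (fun t => Real.log (2 * Real.sin (π * t))) 1
      rw [sub_zero] at this
      rw [← this]
      apply intervalIntegral.integral_congr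
      intro t _
      change Real.log (2 * Real.sin (π * (1 - t))) = Real.log (2 * Real.sin (π * t))
      rw [show π * (1 - t) = π - π * t by ring, Real.sin_pi_sub]
    have e2 := intervalIntegral.integral_add_adjacent_intervals (ls_int 0 (1 - δ))
      (ls_int (1 - δ) 1)
    rw [e] at e2
    linarith
  rw [Lc_one] at h1
  linarith

lemma Lc_half : Lc (1 / 2) = 0 := by
  have := Lc_reflect (1 / 2)
  norm_num at this
  norm_num
  linarith

/-- `Lc` as an integral over `[δ, 1/2]` -/
lemma Lc_eq (δ : ℝ) : Lc δ = ∫ t in δ..(1 / 2), Real.log (2 * Real.sin (π * t)) := by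
  have h := Lc_half
  unfold Pool.Agent.Y472.K.Lc at h ⊢
  have e2 := intervalIntegral.integral_add_adjacent_intervals (ls_int 0 δ) (ls_int δ (1 / 2))
  linarith

lemma Lc_zero : Lc 0 = 0 := by
  unfold Pool.Agent.Y472.K.Lc
  simp

/-- `Lc ≥ 0` on `[0, 1/2]` -/
lemma Lc_nonneg {δ : ℝ} (h0 : 0 ≤ δ) (h1 : δ ≤ 1 / 2) : 0 ≤ Lc δ := by
  have hpi := Real.pi_pos
  rcases le_total δ (1 / 6) with h | h
  · unfold Pool.Agent.Y472.K.Lc
    have : ∫ t in (0 : ℝ)..δ, Real.log (2 * Real.sin (π * t)) ≤ ∫ t in (0 : ℝ)..δ, (0 : ℝ) := by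
      apply intervalIntegral.integral_mono_on h0 (ls_int _ _) (by simp)
      intro t ht
      apply Real.log_nonpos
      · have := Real.sin_nonneg_of_nonneg_of_le_pi (x := π * t) (mul_nonneg hpi.le ht.1)
          (by nlinarith [ht.2])
        linarith
      · have : Real.sin (π * t) ≤ Real.sin (π / 6) := by
          apply Real.sin_le_sin_of_le_of_le_pi_div_two
          · have := mul_nonneg hpi.le ht.1
            linarith
          · linarith
          · nlinarith [ht.2]
        rw [Real.sin_pi_div_six] at this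
        linarith
    simp only [intervalIntegral.integral_zero] at this
    linarith
  · rw [Lc_eq]
    apply intervalIntegral.integral_nonneg h1
    intro t ht
    apply Real.log_nonneg
    have : Real.sin (π / 6) ≤ Real.sin (π * t) := by
      apply Real.sin_le_sin_of_le_of_le_pi_div_two
      · linarith
      · nlinarith [ht.2]
      · nlinarith [ht.1]
    rw [Real.sin_pi_div_six] at this
    linarith

/-- `Lc δ ≤ (1/2 - δ) log 2` on `[0, 1/2]` -/
lemma Lc_le {δ : ℝ} (h0 : 0 < δ) (h1 : δ ≤ 1 / 2) : Lc δ ≤ (1 / 2 - δ) * Real.log 2 := by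
  have hpi := Real.pi_pos
  rw [Lc_eq]
  have : ∫ t in δ..(1 / 2), Real.log (2 * Real.sin (π * t)) ≤
      ∫ t in δ..(1 / 2 : ℝ), Real.log 2 := by
    apply intervalIntegral.integral_mono_on h1 (ls_int _ _) (by simp)
    intro t ht
    have h2 : 0 < Real.sin (π * t) := Real.sin_pos_of_pos_of_lt_pi
      (mul_pos hpi (lt_of_lt_of_le h0 ht.1)) (by nlinarith [ht.2])
    apply Real.log_le_log (by linarith)
    have := Real.sin_le_one (π * t)
    linarith
  simpa using this

lemma Lc_nonpos {δ : ℝ} (h0 : 1 / 2 ≤ δ) (h1 : δ ≤ 1) : Lc δ ≤ 0 := by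
  have h := Lc_reflect (1 - δ)
  rw [sub_sub_cancel] at h
  have := Lc_nonneg (δ := 1 - δ) (by linarith) (by linarith)
  linarith

/-- upper bound of `Lc (1/3)` -/
lemma Lc_third : Lc (1 / 3) ≤ 0.10802 := by
  have hpi := Real.pi_pos
  rw [Lc_eq]
  have h1 : ∫ t in (1 / 3 : ℝ)..(1 / 2), Real.log (2 * Real.sin (π * t)) ≤
      ∫ t in (1 / 3 : ℝ)..(1 / 2), ((Real.log 2 - 1) + Real.sin (π * t)) := by
    apply intervalIntegral.integral_mono_on (by norm_num) (ls_int _ _)
      (Continuous.intervalIntegrable (by fun_prop) _ _)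
    intro t ht
    have h2 : 0 < Real.sin (π * t) := Real.sin_pos_of_pos_of_lt_pi
      (mul_pos hpi (lt_of_lt_of_le (by norm_num) ht.1)) (by nlinarith [ht.2])
    have := log_tan (x₀ := 2) (x := 2 * Real.sin (π * t)) (by norm_num) (by linarith) le_rfl
    linarith
  rw [intervalIntegral.integral_add (by simp) (Continuous.intervalIntegrable (by fun_prop) _ _),
    int_S, show π * (1 / 3) = π / 3 by ring, show π * (1 / 2) = π / 2 by ring,
    Real.cos_pi_div_three, Real.cos_pi_div_two] at h1
  simp only [intervalIntegral.integral_const, smul_eq_mul] at h1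
  have h3 := Real.log_two_lt_d9
  have h4 : (1 / 2 - 0) / π ≤ 0.159156 := by
    rw [div_le_iff₀ hpi]
    have := Real.pi_gt_d6
    norm_num at this ⊢
    linarith
  norm_num at h3 h4 h1 ⊢
  linarith

/-- lower bound of `Lc η` -/
lemma Lc_small {η : ℝ} (h0 : 0 < η) (h1 : η ≤ 1 / 2) :
    η * (1 - Real.log (2 * π * η)) ≤ Lc η := by
  have hpi := Real.pi_pos
  have hi : IntervalIntegrable (fun t => Real.log (2 * π * t)) volume 0 η := by
    have h : MeromorphicOn (fun t : ℝ => 2 * π * t) [[0, η]] := by
      intro t _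
      apply AnalyticAt.meromorphicAt
      fun_prop
    exact h.intervalIntegrable_log
  have h2 : ∫ t in (0 : ℝ)..η, Real.log (2 * Real.sin (π * t)) ≤
      ∫ t in (0 : ℝ)..η, Real.log (2 * π * t) := by
    apply intervalIntegral.integral_mono_on h0.le (ls_int _ _) hi
    intro t ht
    rcases eq_or_lt_of_le ht.1 with h | h
    · rw [← h]; simp
    · have h3 : 0 < Real.sin (π * t) := Real.sin_pos_of_pos_of_lt_pi (mul_pos hpi h)
        (by nlinarith [ht.2])
      apply Real.log_le_log (by linarith)
      have := Real.sin_le (x := π * t) (by positivity)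
      linarith
  have h3 : ∫ t in (0 : ℝ)..η, Real.log (2 * π * t) = η * (Real.log (2 * π * η) - 1) := by
    have h4 := intervalIntegral.integral_comp_mul_left (a := 0) (b := η)
      (fun u => Real.log u) (show (2 * π) ≠ 0 by positivity)
    rw [h4, integral_log]
    simp only [mul_zero, Real.log_zero, sub_zero, add_zero, smul_eq_mul]
    field_simp
  unfold Pool.Agent.Y472.K.Lc
  linarith

end Pool.Agent.Y739.TK
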