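import Pool.Agent.Y739.TK.Num

/-!
# Turk's head knots (project of helper472): numerical bounds for the cases `n = 5, 6, 7`, part 2
(job TK-ST567)
-/

set_option autoImplicit false

namespace Pool.Agent.Y739.TK

open Set Filter Topology MeasureTheory intervalIntegral
open scoped Real Interval
open Pool.Agent.Y472.K (Lc lf Ep ga Ch yn bs Es Dn ee S_PAR S_JEN S_G1 S_G2 S_G3 S_G5)
open Pool.Agent.Y813.TK (ps ph ps_cont ph_cont ph_reflect ps_neg ps_pos_arg ph_int_half
  ls_int Lc_cont Lc_deriv Lc_one ee_cont ee_deriv ee_one der_pos der_neg int_lf lf_zero)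

/-! ### General bounds -/

/-- the integral of `ps` from `0` -/
noncomputable def Th (C u : ℝ) : ℝ := ∫ s in (0 : ℝ)..u, ps C s

lemma ee_eq (C δ : ℝ) : ee C δ = Lc δ + Th C (δ / 2) := rfl

lemma Th_diff {C : ℝ} (hC : 1 < C) (u v : ℝ) : Th C v = Th C u + ∫ s in u..v, ps C s := by
  unfold Th
  exact (intervalIntegral.integral_add_adjacent_intervals
    ((ps_cont hC).intervalIntegrable _ _) ((ps_cont hC).intervalIntegrable _ _)).symm

lemma Th_half {y : ℝ} (hJ : S_JEN) (hy : 0 < y) : Th (Real.cosh y) (1 / 2) = y / 2 := by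
  have h := ee_one hJ hy
  rw [ee_eq, Lc_one, zero_add] at h
  exact h

/-- an upper bound by the maximum of the integrand -/
lemma Th_step {C u v L : ℝ} (hC : 1 < C) (h : u ≤ v)
    (hL : ∀ s ∈ Icc u v, Real.log (2 * C + 2 * Real.cos (2 * π * s)) ≤ L) :
    Th C v ≤ Th C u + (v - u) * L := by
  rw [Th_diff hC u v]
  have : ∫ s in u..v, ps C s ≤ ∫ s in u..v, L := by
    apply intervalIntegral.integral_mono_on h ((ps_cont hC).intervalIntegrable _ _) (by simp)
    intro s hs
    exact hL s hs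
  simp only [intervalIntegral.integral_const, smul_eq_mul] at this
  linarith

/-- an upper bound near `1/2` -/
lemma Th_top {y v Λ : ℝ} (hJ : S_JEN) (hy : 0 < y) (hv : v ≤ 1 / 2)
    (hΛ : -Λ ≤ Real.log (2 * Real.cosh y - 2)) :
    Th (Real.cosh y) v ≤ y / 2 + (1 / 2 - v) * Λ := by
  have hC : 1 < Real.cosh y := Real.one_lt_cosh.2 hy.ne'
  have h := Th_diff hC v (1 / 2)
  rw [Th_half hJ hy] at h
  have h2 : ∫ s in v..(1 / 2 : ℝ), (-Λ) ≤ ∫ s in v..(1 / 2), ps (Real.cosh y) s := by
    apply intervalIntegral.integral_mono_on hv (by simp) ((ps_cont hC).intervalIntegrable _ _)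
    intro s _
    refine hΛ.trans (Real.log_le_log (by linarith) ?_)
    have := Real.neg_one_le_cos (2 * π * s)
    linarith
  simp only [intervalIntegral.integral_const, smul_eq_mul] at h2
  linarith

/-- an upper bound of `ee` near `1` -/
lemma ee_top {y η Λ : ℝ} (hJ : S_JEN) (hy : 0 < y) (h0 : 0 < η) (h1 : η ≤ 1 / 2)
    (hΛ : -Λ ≤ Real.log (2 * Real.cosh y - 2)) :
    ee (Real.cosh y) (1 - η) ≤ y / 2 + η * (Λ / 2 - 1 + Real.log (2 * π * η)) := by
  rw [ee_eq, Lc_reflect]
  have h2 := Lc_small h0 h1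
  have h3 := Th_top (v := (1 - η) / 2) hJ hy (by linarith) hΛ
  linarith

/-- pairs on one side of `1 / 2` -/
lemma kk_le {C δ : ℝ} (hC : 1 < C) (h0 : 0 ≤ δ) (h1 : δ ≤ 1 / 2) :
    Lc δ + 1 / 2 * ∫ s in (0 : ℝ)..δ, Real.log (2 * C + 2 * |Real.cos (2 * π * s)|) ≤
      Th C (1 / 4) := by
  have hpi := Real.pi_pos
  have hc := ph_cont hC.le
  have hi : ∀ u v : ℝ, IntervalIntegrable (ph C) volume u v := fun u v =>
    hc.intervalIntegrable u v
  change Lc δ + 1 / 2 * ∫ s in (0 : ℝ)..δ, ph C s ≤ Th C (1 / 4)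
  have e1 : Th C (1 / 4) = ∫ s in (0 : ℝ)..(1 / 4), ph C s := by
    unfold Th
    apply intervalIntegral.integral_congr
    intro s hs
    rw [uIcc_of_le (by norm_num)] at hs
    have : 0 ≤ Real.cos (2 * π * s) := by
      apply Real.cos_nonneg_of_neg_pi_div_two_le_of_le
      · have := mul_nonneg hpi.le hs.1
        linarith
      · nlinarith [hs.2]
    change Real.log (2 * C + 2 * Real.cos (2 * π * s)) =
      Real.log (2 * C + 2 * |Real.cos (2 * π * s)|)
    rw [abs_of_nonneg this]
  have e2 : ∫ s in (1 / 4 : ℝ)..(1 / 2), ph C s = ∫ s in (0 : ℝ)..(1 / 4), ph C s := by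
    have := intervalIntegral.integral_comp_sub_left (a := 0) (b := 1 / 4) (fun t => ph C t) (1 / 2)
    rw [sub_zero, show (1 / 2 : ℝ) - 1 / 4 = 1 / 4 by norm_num] at this
    rw [← this]
    apply intervalIntegral.integral_congr
    intro t _
    exact ph_reflect C t
  have e3 := intervalIntegral.integral_add_adjacent_intervals (hi 0 (1 / 4)) (hi (1 / 4) (1 / 2))
  have e4 := intervalIntegral.integral_add_adjacent_intervals (hi 0 δ) (hi δ (1 / 2))
  have e5 : Lc δ ≤ ∫ t in δ..(1 / 2), (1 / 2 * ph C t) := by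
    rw [Lc_eq]
    apply intervalIntegral.integral_mono_on h1 (ls_int _ _)
      (Continuous.intervalIntegrable (by fun_prop) _ _)
    intro t ht
    have h3 : 0 ≤ Real.sin (π * t) := Real.sin_nonneg_of_nonneg_of_le_pi
      (mul_nonneg hpi.le (h0.trans ht.1)) (by nlinarith [ht.2])
    rcases eq_or_lt_of_le h3 with h | h
    · rw [← h, mul_zero, Real.log_zero]
      have : 0 ≤ ph C t := by
        unfold ph
        apply Real.log_nonneg
        have := abs_nonneg (Real.cos (2 * π * t))
        linarith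
      linarith
    · have h4 : 2 * Real.log (2 * Real.sin (π * t)) = Real.log ((2 * Real.sin (π * t)) ^ 2) := by
        rw [Real.log_pow]; norm_num
      have h5 : Real.log ((2 * Real.sin (π * t)) ^ 2) ≤ ph C t := by
        unfold ph
        apply Real.log_le_log (by positivity)
        have h6 := Real.cos_sq' (π * t)
        have h7 := Real.cos_two_mul (π * t)
        rw [show 2 * (π * t) = 2 * π * t by ring] at h7
        have := neg_abs_le (Real.cos (2 * π * t))
        nlinarith
      linarith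
  rw [intervalIntegral.integral_const_mul] at e5
  rw [e1]
  linarith

/-! ### Trigonometric constants -/

lemma sqrt2_b : 1.41421 < √(2 : ℝ) ∧ √(2 : ℝ) < 1.41422 := by
  constructor
  · exact Real.lt_sqrt_of_sq_lt (by norm_num)
  · rw [Real.sqrt_lt' (by norm_num)]; norm_num

lemma sqrt3_b : 1.73205 < √(3 : ℝ) ∧ √(3 : ℝ) < 1.73206 := by
  constructor
  · exact Real.lt_sqrt_of_sq_lt (by norm_num)
  · rw [Real.sqrt_lt' (by norm_num)]; norm_num

lemma cos8_b : 0.92387 < Real.cos (π / 8) ∧ Real.cos (π / 8) < 0.92389 := by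
  have h := sqrt2_b
  rw [Real.cos_pi_div_eight]
  have h1 : 1.84774 < √(2 + √(2 : ℝ)) := by
    apply Real.lt_sqrt_of_sq_lt
    norm_num at h ⊢
    linarith [h.1]
  have h2 : √(2 + √(2 : ℝ)) < 1.84778 := by
    rw [Real.sqrt_lt' (by norm_num)]
    norm_num at h ⊢
    linarith [h.2]
  norm_num at h1 h2 ⊢
  constructor <;> linarith

lemma sin8_b : 0.38268 < Real.sin (π / 8) ∧ Real.sin (π / 8) < 0.38269 := by
  have h := sqrt2_b
  rw [Real.sin_pi_div_eight]
  have h1 : 0.76536 < √(2 - √(2 : ℝ)) := by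
    apply Real.lt_sqrt_of_sq_lt
    norm_num at h ⊢
    linarith [h.2]
  have h2 : √(2 - √(2 : ℝ)) < 0.76538 := by
    rw [Real.sqrt_lt' (by norm_num)]
    norm_num at h ⊢
    linarith [h.1]
  norm_num at h1 h2 ⊢
  constructor <;> linarith

lemma cos38 : Real.cos (π * (3 / 8)) = Real.sin (π / 8) := by
  rw [← Real.cos_pi_div_two_sub]
  congr 1; ring

lemma sin38 : Real.sin (π * (3 / 8)) = Real.cos (π / 8) := by
  rw [← Real.sin_pi_div_two_sub]
  congr 1; ring

lemma cos34 : Real.cos (2 * π * (3 / 16)) = Real.sin (π / 8) := by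
  rw [← Real.cos_pi_div_two_sub]
  congr 1; ring

lemma sin34 : Real.sin (2 * π * (3 / 16)) = Real.cos (π / 8) := by
  rw [← Real.sin_pi_div_two_sub]
  congr 1; ring

/-! ### The maximal rate from below -/

/-- lower bound of `Lc (3/8)` -/
lemma Lc38 : 0.0832 < Lc (3 / 8) := by
  have hpi := Real.pi_pos
  have h2 := Real.log_two_gt_d9
  have h2' := Real.log_two_lt_d9
  have h3 := log3_lo
  have h5 := log5_hi
  rw [Lc_eq]
  have h1 : ∫ t in (3 / 8 : ℝ)..(1 / 2), ((-0.3607) + 0.5268 * 2 * Real.sin (π * t)) ≤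
      ∫ t in (3 / 8 : ℝ)..(1 / 2), Real.log (2 * Real.sin (π * t)) := by
    apply intervalIntegral.integral_mono_on (by norm_num)
      (Continuous.intervalIntegrable (by fun_prop) _ _) (ls_int _ _)
    intro t ht
    have h4 : Real.sin (π * (3 / 8)) ≤ Real.sin (π * t) := by
      apply Real.sin_le_sin_of_le_of_le_pi_div_two
      · linarith
      · nlinarith [ht.2]
      · nlinarith [ht.1]
    rw [sin38] at h4
    have h6 := cos8_b.1
    have h7 : Real.log (9 / 5) = 2 * Real.log 3 - Real.log 5 := by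
      rw [Real.log_div (by norm_num) (by norm_num), show (9 : ℝ) = 3 ^ 2 by norm_num,
        Real.log_pow]
      norm_num
    have h8 := log_chord (m := 9 / 5) (M := 2) (α := -0.3607) (l := 0.5268)
      (x := 2 * Real.sin (π * t)) (by norm_num) (by linarith)
      (by linarith [Real.sin_le_one (π * t)])
      (by rw [h7]; norm_num at h3 h5 ⊢; linarith) (by norm_num at h2 ⊢; linarith)
    linarith
  rw [intervalIntegral.integral_add (by simp) (Continuous.intervalIntegrable (by fun_prop) _ _),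
    intervalIntegral.integral_const_mul,
    int_S, cos38, show π * (1 / 2) = π / 2 by ring, Real.cos_pi_div_two] at h1
  simp only [intervalIntegral.integral_const, smul_eq_mul] at h1
  have h9 : 0.12181 < (Real.sin (π / 8) - 0) / π := by
    rw [lt_div_iff₀ hpi]
    have h6 := sin8_b.1
    have := Real.pi_lt_d6
    linarith
  norm_num at h1 h9 ⊢
  linarith

/-- lower bound of `ee C (3/8)` -/
lemma ee38 {C m M α l : ℝ} (hC : 1 < C) (hl : 0 ≤ l) (hm : 0 < m)
    (h1 : α + l * m ≤ Real.log m) (h2 : α + l * M ≤ Real.log M)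
    (h3 : m ≤ 2 * C + 0.76536) (h4 : 2 * C + 2 ≤ M) :
    0.0832 + (3 / 16 * α + l * (3 / 8 * C + 0.29407)) ≤ ee C (3 / 8) := by
  have hpi := Real.pi_pos
  have h5 := Th_lb (C := C) (p := 0) (q := 3 / 16) hC (by norm_num) hm h1 h2 (by
    intro s hs
    have h6 := Real.cos_le_one (2 * π * s)
    have h7 : Real.cos (2 * π * (3 / 16)) ≤ Real.cos (2 * π * s) := by
      apply Real.cos_le_cos_of_nonneg_of_le_pi
      · have := mul_nonneg hpi.le hs.1
        linarith
      · nlinarith
      · nlinarith [hs.2]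
    rw [cos34] at h7
    have h8 := sin8_b.1
    constructor <;> linarith)
  rw [sin34, mul_zero, Real.sin_zero] at h5
  have h9 : 0.29407 < (Real.cos (π / 8) - 0) / π := by
    rw [lt_div_iff₀ hpi]
    have h6 := cos8_b.1
    have := Real.pi_lt_d6
    linarith
  have h10 := Lc38
  rw [ee_eq, show (3 / 8 : ℝ) / 2 = 3 / 16 by norm_num]
  unfold Th
  have h11 := mul_le_mul_of_nonneg_left h9.le hl
  norm_num at h5 h10 h11 ⊢
  nlinarith

end Pool.Agent.Y739.TK
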